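import Pool.Agent.Y916.Sl.Fin

/-!
# Elliptic logarithms, their quasi-logarithms and logarithms in a short window around an algebraic number, relative to
the periods

Parts: values of the power series at algebraic points (helper333, on the library of project AL by helper261, helper419,
helper113, helper787, helper708, helper921), elliptic logarithms at complex points (helper71).
-/

set_option autoImplicit false

open scoped PeriodPair

namespace Pool.Agent.Results.MP_c9768e_nt.AlgebraicWindows

/-- The Weierstrass zeta function `ζ(z) = ∑ (1/(z-l) + 1/l + z/l²)`, the sum over the lattice (the summand of `l = 0` is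
`1/z`, since `1/0 = 0` in Lean). -/
noncomputable def zeta (L : PeriodPair) (z : ℂ) : ℂ := ∑' l : L.lattice, (1 / (z - l) + 1 / l + z / l ^ 2)

/-- The periods `ω₁`, `ω₂`, the half quasi-periods `ζ(ω₁/2)`, `ζ(ω₂/2)`, and `2πi`. -/
noncomputable def periods (L : PeriodPair) : Fin 5 → ℂ :=
  ![L.ω₁, L.ω₂, zeta L (L.ω₁ / 2), zeta L (L.ω₂ / 2), 2 * Real.pi * Complex.I]

/-- Let `L` be a lattice with rational invariants. For all `r`, `m`, `A`, `d`, `δ`, `τ` there is `E` such that for all `H`,
all complex numbers `ξ` with `|ξ| ≥ (H + 2)^E` which are roots of a nonzero integral polynomial of degree at most `m` with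
coefficients at most `|ξ|^A` and all complex numbers `w_1, …, w_τ` there is a set `S` of at most `τ + 1 + ρ` integers, `ρ`
the transcendence degree of the field generated by the `periods`, with the following property. Let `n_1, …, n_r` be
distinct integers in `[1, H]` outside `S`, `℘(p_i) = exp(l_i) = ξ + n_i`, `K` a number field of degree at most `d` and `P`
a polynomial over `K` of degree at most `δ` which vanishes at the `w_j`, the `periods` and the `p_i`, `ζ(p_i)`, `l_i`. Then
`P(w, periods, Y)` is the zero polynomial. -/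
theorem result (L : PeriodPair) (a b : ℚ) (ha : L.g₂ = a) (hb : L.g₃ = b) (r m A d δ τ : ℕ) :
    ∃ E : ℕ, ∀ (H : ℕ) (ξ : ℂ), ((H : ℝ) + 2) ^ E ≤ ‖ξ‖ →
      (∃ p : Polynomial ℤ, p ≠ 0 ∧ p.natDegree ≤ m ∧ (∀ j, |(p.coeff j : ℝ)| ≤ ‖ξ‖ ^ A) ∧
        Polynomial.aeval ξ p = 0) →
      ∀ w : Fin τ → ℂ, ∃ S : Finset ℕ,
      (S.card : Cardinal) ≤ τ + 1 + Algebra.trdeg ℚ (IntermediateField.adjoin ℚ (Set.range (periods L))) ∧
      ∀ n : Fin r → ℕ, Function.Injective n → (∀ i, 1 ≤ n i ∧ n i ≤ H ∧ n i ∉ S) →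
      ∀ p l : Fin r → ℂ, (∀ i, p i ∉ L.lattice ∧ ℘[L] (p i) = ξ + n i ∧ Complex.exp (l i) = ξ + n i) →
      ∀ K : IntermediateField ℚ ℂ, FiniteDimensional ℚ K → Module.finrank ℚ K ≤ d →
      ∀ P : MvPolynomial ((Fin τ ⊕ Fin 5) ⊕ Fin r × Fin 3) K, P.totalDegree ≤ δ →
        MvPolynomial.aeval (Sum.elim (Sum.elim w (periods L))
          fun x => (![p x.1, zeta L (p x.1), l x.1] : Fin 3 → ℂ) x.2) P = 0 →
        MvPolynomial.aeval (Sum.elim (fun j => MvPolynomial.C (Sum.elim w (periods L) j)) MvPolynomial.X) P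
          = (0 : MvPolynomial (Fin r × Fin 3) ℂ) :=
  Pool.Agent.Y916.Sl.ellW Pool.Agent.Y916.Sl.tV Pool.Agent.Y916.Sl.tW L a b ha hb r m A d δ τ

end Pool.Agent.Results.MP_c9768e_nt.AlgebraicWindows
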