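import Pool.Agent.Y627.KW.EllC

/-!
# Split semi-elliptic logarithms of almost all tuples of elements of a number field

The problem: if `e ^ (t_l)` (`l ≤ s`), `℘ (p_i)` (`i ≤ m`) and `ζ (p_i)` (`m < i ≤ n`) are algebraic, the `t_l` linearly
independent over `ℚ` and the `p_i` over `End`, the `s + n` numbers `t_l`, `p_i` should be algebraically independent. We
consider tuples `x = (x_1, …, x_n)` in `k ^ n`, `k` any number field in `ℂ`, and for every `j` an analytic function `q_j`
on an open connected set `S_j` with `exp (q_j (t)) = t`, or `℘_j (q_j (t)) = t`, or `ζ_j (q_j (t)) = t` (`℘_j`, `ζ_j` the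
functions of any lattice `L_j`); thus `q_j (x_j)` is any of the logarithms of the problem. The tuples `x` of height at
most `T`, with the `x_j` in compact subsets of `S_j`, for which the `n + 1` numbers `π`, `q_j (x_j)` satisfy a relation
(even an approximate one) of degree at most `d` with coefficients in `k` of height at most `T ^ A` lie on at most
`C T ^ ε` hypersurfaces of degree at most `D`. (Some hypersurfaces have to be excluded, for instance `x_1 = x_2` and
`x_3 = x_1 x_2` for ordinary logarithms, `x_1 = ℘ (2 ℘⁻¹ (x_2))` for elliptic ones.)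

An earlier result of this pool (`AlmostAllPoints`) had `k = ℚ`, real branches and the bound `C T ^ (2 (n - 1) + β)`,
`β > 2 - 2 / ((d + 1)^(n + 1) + 1)`, for the number of the exceptional tuples; here `ε` replaces `β`, `k` is any number
field and the branches are complex analytic. (`EllipticTuples` treats all heights, but only `p` with `℘ (p)` an integer
plus a constant, and rational invariants.)

Proof: the general theorem of helper124 in the form of helper771 (`Pool.Agent.Y771.KF.stdK`) reduces this to the
transcendence of the single functions `q_j` over `ℂ (t)`, i.e. to the independence of `z` and one of the functions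
`e ^ z`, `℘ (z)`, `ζ (z)` (starting library).
-/

set_option autoImplicit false

namespace Pool.Agent.Results.MP_c9768e_nt.AlmostAllTuples

/-- The Weierstrass zeta function `ζ(z) = ∑ (1/(z-l) + 1/l + z/l²)`, the sum over the lattice (the summand of `l = 0` is
`1/z`, since `1/0 = 0` in Lean). -/
noncomputable def zeta (L : PeriodPair) (z : ℂ) : ℂ := ∑' l : L.lattice, (1 / (z - l) + 1 / l + z / l ^ 2)

/-- `q` is, on `S`, a logarithm of one of the three kinds: a branch of the inverse function of the exponential function,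
or of `℘`, or of `ζ` (for the lattice `L`). -/
def IsLog (L : PeriodPair) (S : Set ℂ) (q : ℂ → ℂ) : Prop :=
  (∀ t ∈ S, Complex.exp (q t) = t) ∨
  (∀ t ∈ S, q t ∉ L.lattice ∧ L.weierstrassP (q t) = t) ∨
  (∀ t ∈ S, q t ∉ L.lattice ∧ zeta L (q t) = t)

/-- The `n + 1` numbers `π`, `q_j (x_j)`, where `x_j` is read as a complex number by the embedding `σ`. -/
noncomputable def numbers {k : Type} [Field k] (σ : k →+* ℂ) {n : ℕ} (q : Fin n → ℂ → ℂ) (x : Fin n → k) :
    Option (Fin n) → ℂ
  | none => (Real.pi : ℂ)
  | some j => q j (σ (x j))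

/-- The `n`-tuples `x` of elements of `k`, of height at most `T` and with `σ x_j ∈ K_j`, for which some nonzero
polynomial with coefficients in `k` of height at most `T ^ A`, of degree at most `d` in each variable, takes at the
`n + 1` numbers a value of absolute value at most `T ^ (-B)`. -/
def Exceptional {k : Type} [Field k] [NumberField k] (σ : k →+* ℂ) {n : ℕ} (d : ℕ) (q : Fin n → ℂ → ℂ)
    (K : Fin n → Set ℂ) (A B T : ℝ) : Set (Fin n → k) :=
  {x | (∀ j, σ (x j) ∈ K j ∧ Height.mulHeight₁ (x j) ≤ T) ∧
    ∃ P : MvPolynomial (Option (Fin n)) k, P ≠ 0 ∧ (∀ i, P.degreeOf i ≤ d) ∧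
      (∀ e, Height.mulHeight₁ (P.coeff e) ≤ T ^ A) ∧ ‖MvPolynomial.eval₂ σ (numbers σ q x) P‖ ≤ T ^ (-B)}

/-- Let `k` be a number field with an embedding `σ` in `ℂ`, `n ≥ 1`, let `L_1, …, L_n` be lattices, `S_j` open connected
subsets of `ℂ`, `q_j` analytic on `S_j` and a logarithm of one of the three kinds, and `K_j` compact subsets of `S_j`.
For all `d`, `A` and `ε > 0` there are `D`, `B` and `C` such that for all `T ≥ 1` the exceptional `n`-tuples are zeros of
at most `C T ^ ε` nonzero polynomials of degree at most `D`, and their number is at most `C T ^ ε N (T) ^ (n - 1)`, where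
`N (T)` is the number of elements of `k` of height at most `T`. -/
theorem result (k : Type) [Field k] [NumberField k] (σ : k →+* ℂ) (n d : ℕ) (hn : 1 ≤ n)
    (L : Fin n → PeriodPair) (S : Fin n → Set ℂ) (hSo : ∀ j, IsOpen (S j)) (hSc : ∀ j, IsConnected (S j))
    (q : Fin n → ℂ → ℂ) (hq : ∀ j, AnalyticOnNhd ℂ (q j) (S j)) (hlog : ∀ j, IsLog (L j) (S j) (q j))
    (K : Fin n → Set ℂ) (hK : ∀ j, IsCompact (K j)) (hKS : ∀ j, K j ⊆ S j) (A ε : ℝ) (hε : 0 < ε) :
    ∃ (D : ℕ) (B C : ℝ), ∀ T : ℝ, 1 ≤ T →
      (∃ Φ : Finset (MvPolynomial (Fin n) k), (Φ.card : ℝ) ≤ C * T ^ ε ∧ (∀ R ∈ Φ, R ≠ 0 ∧ R.totalDegree ≤ D) ∧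
        ∀ x ∈ Exceptional σ d q K A B T, ∃ R ∈ Φ, MvPolynomial.eval x R = 0) ∧
      (Exceptional σ d q K A B T).Finite ∧
      ((Exceptional σ d q K A B T).ncard : ℝ) ≤
        C * T ^ ε * ({x : k | Height.mulHeight₁ x ≤ T}.ncard : ℝ) ^ (n - 1) := by
  obtain ⟨D, B, C, h⟩ := Pool.Agent.Y627.KW.main1 σ n d hn q S K
    (fun j => (hSc j).isPreconnected) hK hKS hq (by
      intro j
      rcases hlog j with h1 | h1 | h1
      · exact Pool.Agent.Y627.KW.l_indep (S j) (hSo j) (hSc j).nonempty (q j) (hq j) h1
      · exact Pool.Agent.Y627.KW.p_indep (L j) (S j) (hSo j) (hSc j).nonempty (q j) (hq j) (fun t ht => (h1 t ht).1)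
          (Or.inl fun t ht => (h1 t ht).2)
      · exact Pool.Agent.Y627.KW.p_indep (L j) (S j) (hSo j) (hSc j).nonempty (q j) (hq j) (fun t ht => (h1 t ht).1)
          (Or.inr fun t ht => (h1 t ht).2))
    A ε hε
  refine ⟨D, B, C, fun T hT => ?_⟩
  have hset : Exceptional σ d q K A B T = Pool.Agent.Y627.KW.Exc1 σ d q K A B T := by
    have heq : ∀ x : Fin n → k, numbers σ q x = Pool.Agent.Y627.KW.num1 σ q x := by
      intro x
      funext i
      rcases i with _ | j
      · rfl
      · rfl
    ext x
    simp only [Exceptional, Pool.Agent.Y627.KW.Exc1, Set.mem_ofPred_eq, heq]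
  rw [hset]
  exact h T hT

end Pool.Agent.Results.MP_c9768e_nt.AlmostAllTuples
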