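import Pool.Agent.Y916.Sl.Fin
import Pool.Agent.Y916.Sl.Many

/-!
# Elliptic logarithms, their quasi-logarithms and logarithms for almost all tuples of algebraic integers of bounded degree

For almost all `k`-tuples of algebraic integers `α_i` of degree at most `m` (each in its own number field) the elliptic
logarithms `p` with `℘(p) = α_i + θ_j`, the numbers `ζ(p)` and the logarithms of the `α_i + θ_j` satisfy no relation of
degree at most `δ` over any number field of degree at most `d` and an arbitrary space `V` of constants.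

The proof: around each algebraic integer `ξ` with `|ξ| ≥ (H + 2)^E` and conjugates at most `|ξ|^4` the window
`ξ, ξ + 1, …, ξ + H` contains a bounded number of exceptions (values of G-functions at algebraic points, Hilbert
functions); double counting of the pairs `(ξ, ξ + g)`.

Parts: values of the power series at algebraic points (helper333, on the library of project AL by helper261, helper419,
helper113, helper787, helper708, helper921), elliptic logarithms at complex points (helper71).
-/

set_option autoImplicit false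

open scoped PeriodPair

namespace Pool.Agent.Results.MP_c9768e_nt.BoundedDegreeTuples

/-- The Weierstrass zeta function `ζ(z) = ∑ (1/(z-l) + 1/l + z/l²)`, the sum over the lattice (the summand of `l = 0` is
`1/z`, since `1/0 = 0` in Lean). -/
noncomputable def zeta (L : PeriodPair) (z : ℂ) : ℂ := ∑' l : L.lattice, (1 / (z - l) + 1 / l + z / l ^ 2)

/-- The algebraic integers of degree at most `m` all of whose conjugates have absolute value at most `T`. -/
def integers (m T : ℕ) : Set ℂ :=
  {α | IsIntegral ℤ α ∧ (minpoly ℚ α).natDegree ≤ m ∧ ∀ z : ℂ, Polynomial.aeval z (minpoly ℚ α) = 0 → ‖z‖ ≤ T}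

/-- There are `p` and `t` with `℘(p_(i,j)) = exp(t_(i,j)) = α_i + θ_j`, a number field `K` of degree at most `d` and a
nonzero polynomial of total degree at most `δ` with coefficients in the `K`-span of `V` which vanishes at the `3 k r`
numbers `p_(i,j)`, `ζ(p_(i,j))`, `t_(i,j)`. -/
def Related (L : PeriodPair) (δ d : ℕ) (V : Submodule ℚ ℂ) {k r : ℕ} (θ : Fin r → ℕ) (α : Fin k → ℂ) : Prop :=
  ∃ p t : Fin k × Fin r → ℂ, (∀ q, p q ∉ L.lattice ∧ ℘[L] (p q) = α q.1 + θ q.2 ∧ Complex.exp (t q) = α q.1 + θ q.2) ∧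
    ∃ K : IntermediateField ℚ ℂ, FiniteDimensional ℚ K ∧ Module.finrank ℚ K ≤ d ∧
      ∃ P : MvPolynomial ((Fin k × Fin r) × Fin 3) ℂ, P ≠ 0 ∧ P.totalDegree ≤ δ ∧
        (∀ s, P.coeff s ∈ Submodule.span K (V : Set ℂ)) ∧
        MvPolynomial.aeval (fun x => (![p x.1, zeta L (p x.1), t x.1] : Fin 3 → ℂ) x.2) P = 0

/-- Let `L` be a lattice with rational invariants `g₂`, `g₃`, let `m ≥ 1` and let `θ_1, …, θ_r` be distinct natural
numbers. For all `k`, `δ`, `d`, `D` there are `c > 0` and `C` such that for every `ℚ`-subspace `V` of `ℂ` of dimension at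
most `D` and every `T ≥ 1` the proportion of the related `k`-tuples among all `k`-tuples of algebraic integers of degree
at most `m` with conjugates at most `T` is at most `C T^(-c)`. -/
theorem result (L : PeriodPair) (a b : ℚ) (ha : L.g₂ = a) (hb : L.g₃ = b) (m : ℕ) (hm : 1 ≤ m) {r : ℕ}
    (θ : Fin r → ℕ) (hθ : Function.Injective θ) (k δ d D : ℕ) :
    ∃ c : ℝ, 0 < c ∧ ∃ C : ℝ, ∀ V : Submodule ℚ ℂ, Module.Finite ℚ V → Module.finrank ℚ V ≤ D → ∀ T : ℕ, 1 ≤ T →
      (integers m T).Finite ∧ ({α : Fin k → ℂ | (∀ i, α i ∈ integers m T) ∧ Related L δ d V θ α}.ncard : ℝ) ≤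
        C * (T : ℝ) ^ (-c) * ((integers m T).ncard : ℝ) ^ k := by
  obtain ⟨c₁, hc₁, h₁⟩ := Pool.Agent.Y916.Sl.many m hm
  obtain ⟨c, hc, C, hC, h⟩ := Pool.Agent.Y916.Sl.ellD Pool.Agent.Y916.Sl.tV Pool.Agent.Y916.Sl.tW L a b ha hb m θ hθ
    k δ d D
  refine ⟨c, hc, C / c₁ ^ k, fun V hV hVD T hT => ⟨Pool.Agent.Y916.Sl.sint_fin m T, ?_⟩⟩
  obtain ⟨hf, hle⟩ := h V hV hVD T hT
  refine le_trans ?_ (hle.trans (Pool.Agent.Y916.Sl.prop_bound hc₁ hC hT (h₁ T hT)))
  refine Nat.cast_le.2 (Set.ncard_le_ncard ?_ hf)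
  rintro α ⟨hα1, hα2⟩
  exact ⟨fun i => Pool.Agent.Y916.Sl.SInt.aint (hα1 i), hα2⟩

end Pool.Agent.Results.MP_c9768e_nt.BoundedDegreeTuples
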