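import Pool.Agent.Y916.Sl.Fin

/-!
# Elliptic logarithms, their quasi-logarithms and logarithms for almost all tuples of integers of a number field

Parts: values of the power series at algebraic points (helper333, on the library of project AL by helper261, helper419,
helper113, helper787, helper708, helper921), elliptic logarithms at complex points (helper71).
-/

set_option autoImplicit false

open scoped PeriodPair

namespace Pool.Agent.Results.MP_c9768e_nt.NumberFieldTuples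

/-- The Weierstrass zeta function `ζ(z) = ∑ (1/(z-l) + 1/l + z/l²)`, the sum over the lattice (the summand of `l = 0` is
`1/z`, since `1/0 = 0` in Lean). -/
noncomputable def zeta (L : PeriodPair) (z : ℂ) : ℂ := ∑' l : L.lattice, (1 / (z - l) + 1 / l + z / l ^ 2)

/-- The number `ω_0 n_0 + … + ω_m n_m`. -/
noncomputable def num {m : ℕ} (ω : Fin (m + 1) → ℂ) (n : Fin (m + 1) → ℤ) : ℂ := ∑ j, (n j : ℂ) * ω j

/-- There are `p` and `t` with `℘(p_(i,j)) = exp(t_(i,j)) = α_i + θ_j`, `α_i = num ω (n i)`, a number field `K` of degree at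
most `d` and a nonzero polynomial of total degree at most `δ` with coefficients in the `K`-span of `V` which vanishes at
the `3 k r` numbers `p_(i,j)`, `ζ(p_(i,j))`, `t_(i,j)`. -/
def Related (L : PeriodPair) (δ d : ℕ) (V : Submodule ℚ ℂ) {k m r : ℕ} (ω : Fin (m + 1) → ℂ) (θ : Fin r → ℕ)
    (n : Fin k → Fin (m + 1) → ℤ) : Prop :=
  ∃ p t : Fin k × Fin r → ℂ, (∀ q, p q ∉ L.lattice ∧ ℘[L] (p q) = num ω (n q.1) + θ q.2 ∧
      Complex.exp (t q) = num ω (n q.1) + θ q.2) ∧
    ∃ K : IntermediateField ℚ ℂ, FiniteDimensional ℚ K ∧ Module.finrank ℚ K ≤ d ∧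
      ∃ P : MvPolynomial ((Fin k × Fin r) × Fin 3) ℂ, P ≠ 0 ∧ P.totalDegree ≤ δ ∧
        (∀ s, P.coeff s ∈ Submodule.span K (V : Set ℂ)) ∧
        MvPolynomial.aeval (fun x => (![p x.1, zeta L (p x.1), t x.1] : Fin 3 → ℂ) x.2) P = 0

/-- Let `L` be a lattice with rational invariants `g₂`, `g₃`, let `ω_0 = 1, ω_1, …, ω_m` be algebraic numbers (for instance
an integral basis of a number field) and `θ_1, …, θ_r` distinct natural numbers. For all `k`, `δ`, `d`, `D` there are
`c > 0` and `C` such that for every `ℚ`-subspace `V` of `ℂ` of dimension at most `D` and every `T ≥ 1`, at most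
`C T^(k (m + 1) - c)` of the `k`-tuples of vectors with coordinates in `[-T, T]` are related. -/
theorem result (L : PeriodPair) (a b : ℚ) (ha : L.g₂ = a) (hb : L.g₃ = b) {m r : ℕ} (ω : Fin (m + 1) → ℂ)
    (hω : ∀ j, IsAlgebraic ℚ (ω j)) (hω0 : ω 0 = 1) (θ : Fin r → ℕ) (hθ : Function.Injective θ) (k δ d D : ℕ) :
    ∃ c : ℝ, 0 < c ∧ ∃ C : ℝ, ∀ V : Submodule ℚ ℂ, Module.Finite ℚ V → Module.finrank ℚ V ≤ D → ∀ T : ℕ, 1 ≤ T →
      {n : Fin k → Fin (m + 1) → ℤ | (∀ i l, |n i l| ≤ T) ∧ Related L δ d V ω θ n}.Finite ∧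
      ({n : Fin k → Fin (m + 1) → ℤ | (∀ i l, |n i l| ≤ T) ∧ Related L δ d V ω θ n}.ncard : ℝ) ≤
        C * (T : ℝ) ^ (((k * (m + 1) : ℕ) : ℝ) - c) := by
  obtain ⟨c, hc, C, -, h⟩ := Pool.Agent.Y916.Sl.ellN Pool.Agent.Y916.Sl.tV Pool.Agent.Y916.Sl.tW L a b ha hb ω hω hω0 θ hθ
    k δ d D
  exact ⟨c, hc, C, h⟩

end Pool.Agent.Results.MP_c9768e_nt.NumberFieldTuples
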